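import Mathlib

/-! GS GDB: the linear algebra. -/

open Complex Matrix
open scoped ComplexConjugate ComplexOrder Matrix

namespace Pool.Agent.Helper54.GS

variable {n : ℕ}

theorem herm_diag (C : Matrix (Fin n) (Fin n) ℂ) (hC : C.IsHermitian) :
    ∃ (U : Matrix (Fin n) (Fin n) ℂ) (μ : Fin n → ℝ), U * Uᴴ = 1 ∧
      C = U * diagonal (fun i => (μ i : ℂ)) * Uᴴ ∧ (C.PosDef → ∀ i, 0 < μ i) := by
  refine ⟨hC.eigenvectorUnitary, hC.eigenvalues, ?_, ?_, fun h => h.eigenvalues_pos⟩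
  · exact Unitary.coe_mul_star_self hC.eigenvectorUnitary
  · have h := hC.spectral_theorem
    rw [Unitary.conjStarAlgAut_apply] at h
    exact h

/-- Simultaneous diagonalisation of two positive definite forms. -/
theorem simul (Q Y : Matrix (Fin n) (Fin n) ℂ) (hQ : Q.PosDef) (hY : Y.PosDef) :
    ∃ (P P' : Matrix (Fin n) (Fin n) ℂ) (μ : Fin n → ℝ), P * P' = 1 ∧ P' * P = 1 ∧ Q = P * Pᴴ ∧
      Y = P * diagonal (fun i => (μ i : ℂ)) * Pᴴ ∧ ∀ i, 0 < μ i := by
  obtain ⟨U, l, hU, hQe, hl⟩ := herm_diag Q hQ.isHermitian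
  have hl := hl hQ
  have hU' : Uᴴ * U = 1 := mul_eq_one_comm.1 hU
  let d : Matrix (Fin n) (Fin n) ℂ := diagonal (fun i => ((Real.sqrt (l i) : ℝ) : ℂ))
  let d' : Matrix (Fin n) (Fin n) ℂ := diagonal (fun i => (((Real.sqrt (l i))⁻¹ : ℝ) : ℂ))
  have hs : ∀ i, Real.sqrt (l i) ≠ 0 := fun i => (Real.sqrt_pos.2 (hl i)).ne'
  have hdd : d * d' = 1 := by
    rw [diagonal_mul_diagonal, ← diagonal_one]
    congr 1
    funext i
    rw [← Complex.ofReal_mul, mul_inv_cancel₀ (hs i), Complex.ofReal_one]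
  have hdd' : d' * d = 1 := mul_eq_one_comm.1 hdd
  have hdH : dᴴ = d := by
    rw [diagonal_conjTranspose]
    congr 1
    funext i
    exact Complex.conj_ofReal _
  have hdH' : d'ᴴ = d' := by
    rw [diagonal_conjTranspose]
    congr 1
    funext i
    exact Complex.conj_ofReal _
  have hd2 : d * d = diagonal (fun i => (l i : ℂ)) := by
    rw [diagonal_mul_diagonal]
    congr 1
    funext i
    rw [← Complex.ofReal_mul, Real.mul_self_sqrt (hl i).le]
  let C : Matrix (Fin n) (Fin n) ℂ := d' * Uᴴ * Y * (U * d')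
  have hCC : C = (d' * Uᴴ) * Y * (d' * Uᴴ)ᴴ := by
    change d' * Uᴴ * Y * (U * d') = _
    simp only [conjTranspose_mul, conjTranspose_conjTranspose, hdH']
  have hinj : Function.Injective (d' * Uᴴ).vecMul := by
    have h1 : (d' * Uᴴ) * (U * d) = 1 := by
      calc (d' * Uᴴ) * (U * d) = d' * (Uᴴ * U) * d := by simp only [Matrix.mul_assoc]
        _ = 1 := by rw [hU', Matrix.mul_one, hdd']
    intro v w hvw
    have h2 : (d' * Uᴴ).vecMul v = (d' * Uᴴ).vecMul w := hvw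
    have h3 := congrArg (fun z => (U * d).vecMul z) h2
    simp only [Matrix.vecMul_vecMul, h1, Matrix.vecMul_one] at h3
    exact h3
  have hCp : C.PosDef := by
    rw [hCC]
    exact hY.mul_mul_conjTranspose_same hinj
  obtain ⟨V, μ, hV, hCe, hμ⟩ := herm_diag C hCp.isHermitian
  have hV' : Vᴴ * V = 1 := mul_eq_one_comm.1 hV
  refine ⟨U * d * V, Vᴴ * d' * Uᴴ, μ, ?_, ?_, ?_, ?_, hμ hCp⟩
  · calc U * d * V * (Vᴴ * d' * Uᴴ) = U * (d * (V * Vᴴ) * d') * Uᴴ := by
          simp only [Matrix.mul_assoc]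
      _ = 1 := by rw [hV, Matrix.mul_one, hdd, Matrix.mul_one, hU]
  · calc Vᴴ * d' * Uᴴ * (U * d * V) = Vᴴ * (d' * (Uᴴ * U) * d) * V := by
          simp only [Matrix.mul_assoc]
      _ = 1 := by rw [hU', Matrix.mul_one, hdd', Matrix.mul_one, hV']
  · calc Q = U * diagonal (fun i => (l i : ℂ)) * Uᴴ := hQe
      _ = U * (d * (V * Vᴴ) * d) * Uᴴ := by rw [hV, Matrix.mul_one, hd2]
      _ = U * d * V * (U * d * V)ᴴ := by
          simp only [conjTranspose_mul, hdH, Matrix.mul_assoc]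
  · calc Y = U * (d * d') * Uᴴ * Y * (U * (d' * d) * Uᴴ) := by
          rw [hdd, hdd', Matrix.mul_one, hU, Matrix.one_mul, Matrix.mul_one]
      _ = U * d * (d' * Uᴴ * Y * (U * d')) * (d * Uᴴ) := by simp only [Matrix.mul_assoc]
      _ = U * d * (V * diagonal (fun i => (μ i : ℂ)) * Vᴴ) * (d * Uᴴ) := by rw [← hCe]
      _ = U * d * V * diagonal (fun i => (μ i : ℂ)) * (U * d * V)ᴴ := by
          simp only [conjTranspose_mul, hdH, Matrix.mul_assoc]

/-- the squared Frobenius norm -/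
noncomputable def fr (S : Matrix (Fin n) (Fin n) ℂ) : ℝ := ∑ i, ∑ j, ‖S i j‖ ^ 2

theorem fr_nonneg (S : Matrix (Fin n) (Fin n) ℂ) : 0 ≤ fr S :=
  Finset.sum_nonneg fun _ _ => Finset.sum_nonneg fun _ _ => by positivity

theorem tr_mul_star (S : Matrix (Fin n) (Fin n) ℂ) : (trace (S * Sᴴ)).re = fr S := by
  unfold fr trace
  rw [Complex.re_sum]
  refine Finset.sum_congr rfl fun a _ => ?_
  rw [diag_apply, Matrix.mul_apply, Complex.re_sum]
  refine Finset.sum_congr rfl fun p _ => ?_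
  rw [Matrix.conjTranspose_apply, RCLike.star_def, Complex.mul_conj, Complex.ofReal_re,
    Complex.normSq_eq_norm_sq]

theorem tr_star_mul (S : Matrix (Fin n) (Fin n) ℂ) : (trace (Sᴴ * S)).re = fr S := by
  rw [trace_mul_comm, tr_mul_star]

/-- Cauchy-Schwarz for a product of three matrices, entrywise -/
theorem cs3 (S M S' : Matrix (Fin n) (Fin n) ℂ) (a c : Fin n) :
    ‖(S * M * S') a c‖ ^ 2 ≤ (∑ i, ‖S a i‖ ^ 2) * (∑ j, ‖S' j c‖ ^ 2) * fr M := by
  have h1 : (S * M * S') a c = ∑ x : Fin n × Fin n, M x.1 x.2 * (S a x.1 * S' x.2 c) := by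
    rw [Matrix.mul_apply, Fintype.sum_prod_type, Finset.sum_comm]
    refine Finset.sum_congr rfl fun j _ => ?_
    rw [Matrix.mul_apply, Finset.sum_mul]
    refine Finset.sum_congr rfl fun i _ => by ring
  have h2 : ‖(S * M * S') a c‖ ≤ ∑ x : Fin n × Fin n, ‖M x.1 x.2‖ * (‖S a x.1‖ * ‖S' x.2 c‖) := by
    rw [h1]
    refine (norm_sum_le _ _).trans (Finset.sum_le_sum fun x _ => ?_)
    rw [norm_mul, norm_mul]
  calc ‖(S * M * S') a c‖ ^ 2 ≤
        (∑ x : Fin n × Fin n, ‖M x.1 x.2‖ * (‖S a x.1‖ * ‖S' x.2 c‖)) ^ 2 := by gcongr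
    _ ≤ (∑ x : Fin n × Fin n, ‖M x.1 x.2‖ ^ 2) *
          ∑ x : Fin n × Fin n, (‖S a x.1‖ * ‖S' x.2 c‖) ^ 2 :=
        Finset.sum_mul_sq_le_sq_mul_sq _ _ _
    _ = _ := by
        rw [Fintype.sum_prod_type, Fintype.sum_prod_type]
        unfold fr
        simp only [mul_pow]
        simp only [← Finset.mul_sum, ← Finset.sum_mul]
        ring

theorem cs3_sum (S M S' : Matrix (Fin n) (Fin n) ℂ) :
    ∑ a, ∑ c, ‖(S * M * S') a c‖ ^ 2 ≤ fr S * fr S' * fr M := by
  calc ∑ a, ∑ c, ‖(S * M * S') a c‖ ^ 2 ≤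
        ∑ a, ∑ c, (∑ i, ‖S a i‖ ^ 2) * (∑ j, ‖S' j c‖ ^ 2) * fr M :=
        Finset.sum_le_sum fun a _ => Finset.sum_le_sum fun c _ => cs3 S M S' a c
    _ = _ := by
        have h1 : fr S' = ∑ c, ∑ j, ‖S' j c‖ ^ 2 := by
          unfold fr
          rw [Finset.sum_comm]
        rw [h1]
        unfold fr
        simp only [← Finset.sum_mul, ← Finset.mul_sum]

theorem conj_inv {S S' : Matrix (Fin n) (Fin n) ℂ} (h1 : S * S' = 1) (d : Fin n → ℝ)
    (hd : ∀ i, d i ≠ 0) : (S * diagonal (fun i => (d i : ℂ)) * Sᴴ)⁻¹ =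
      S'ᴴ * diagonal (fun i => ((d i)⁻¹ : ℂ)) * S' := by
  have h2 : S' * S = 1 := mul_eq_one_comm.1 h1
  have h3 : Sᴴ * S'ᴴ = 1 := by rw [← conjTranspose_mul, h2, conjTranspose_one]
  refine Matrix.inv_eq_right_inv ?_
  calc S * diagonal (fun i => (d i : ℂ)) * Sᴴ * (S'ᴴ * diagonal (fun i => ((d i)⁻¹ : ℂ)) * S') =
        S * (diagonal (fun i => (d i : ℂ)) * (Sᴴ * S'ᴴ) * diagonal (fun i => ((d i)⁻¹ : ℂ))) *
          S' := by simp only [Matrix.mul_assoc]
    _ = 1 := by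
        rw [h3, Matrix.mul_one, diagonal_mul_diagonal]
        have : (fun i => (d i : ℂ) * (d i : ℂ)⁻¹) = fun _ => 1 := by
          funext i
          exact mul_inv_cancel₀ (by exact_mod_cast hd i)
        rw [this, diagonal_one, Matrix.mul_one, h1]

/-- real diagonal matrices -/
noncomputable def Dg (d : Fin n → ℝ) : Matrix (Fin n) (Fin n) ℂ := diagonal (fun i => (d i : ℂ))

theorem Dg_mul (d e : Fin n → ℝ) : Dg d * Dg e = Dg (fun i => d i * e i) := by
  unfold Dg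
  rw [diagonal_mul_diagonal]
  simp only [Complex.ofReal_mul]

theorem Dg_smul (t : ℝ) (d : Fin n → ℝ) : (t : ℂ) • Dg d = Dg (fun i => t * d i) := by
  unfold Dg
  rw [← diagonal_smul]
  congr 1
  funext i
  simp

theorem quad (S' : Matrix (Fin n) (Fin n) ℂ) (d : Fin n → ℝ) (a : Fin n → ℂ) :
    ∑ k, ∑ l, (S'ᴴ * Dg d * S') l k * (a k * conj (a l)) =
      ((∑ p, d p * ‖∑ k, S' p k * a k‖ ^ 2 : ℝ) : ℂ) := by
  have h1 : ∀ l k, (S'ᴴ * Dg d * S') l k = ∑ p, conj (S' p l) * (d p : ℂ) * S' p k := by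
    intro l k
    rw [Matrix.mul_apply]
    refine Finset.sum_congr rfl fun p _ => ?_
    unfold Dg
    rw [Matrix.mul_diagonal, conjTranspose_apply]
    rfl
  have h2 : ∀ p, (((d p * ‖∑ k, S' p k * a k‖ ^ 2 : ℝ)) : ℂ) =
      ∑ k, ∑ l, (d p : ℂ) * ((S' p k * a k) * (conj (S' p l) * conj (a l))) := by
    intro p
    have h3 : ((‖∑ k, S' p k * a k‖ ^ 2 : ℝ) : ℂ) =
        (∑ k, S' p k * a k) * ∑ l, conj (S' p l) * conj (a l) := by
      rw [← Complex.normSq_eq_norm_sq, ← Complex.mul_conj, map_sum]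
      simp only [map_mul]
    rw [Complex.ofReal_mul, h3, Finset.sum_mul_sum, Finset.mul_sum]
    exact Finset.sum_congr rfl fun k _ => Finset.mul_sum _ _ _
  rw [Complex.ofReal_sum]
  simp only [h2, h1]
  rw [Finset.sum_comm (s := (Finset.univ : Finset (Fin n))) (t := Finset.univ)
    (f := fun p k => ∑ l, (d p : ℂ) * ((S' p k * a k) * (conj (S' p l) * conj (a l))))]
  refine Finset.sum_congr rfl fun k _ => ?_
  rw [Finset.sum_comm (s := (Finset.univ : Finset (Fin n))) (t := Finset.univ)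
    (f := fun p l => (d p : ℂ) * ((S' p k * a k) * (conj (S' p l) * conj (a l))))]
  refine Finset.sum_congr rfl fun l _ => ?_
  rw [Finset.sum_mul]
  refine Finset.sum_congr rfl fun p _ => by ring

theorem tr_conj {S S' : Matrix (Fin n) (Fin n) ℂ} (h2 : S' * S = 1)
    (X : Matrix (Fin n) (Fin n) ℂ) : trace (S * X * S') = trace X := by
  rw [trace_mul_comm, ← Matrix.mul_assoc, h2, Matrix.one_mul]

theorem tr_four (X Z : Matrix (Fin n) (Fin n) ℂ) (p r : Fin n → ℝ) :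
    trace (X * Dg p * Zᴴ * Dg r) = ∑ i, ∑ j, ((p j * r i : ℝ) : ℂ) * (X i j * conj (Z i j)) := by
  unfold trace Dg
  refine Finset.sum_congr rfl fun i _ => ?_
  rw [diag_apply, Matrix.mul_diagonal, Matrix.mul_apply, Finset.sum_mul]
  refine Finset.sum_congr rfl fun j _ => ?_
  rw [Matrix.mul_diagonal, conjTranspose_apply, RCLike.star_def]
  push_cast
  ring

/-- **The linear algebra of GDB.** -/
theorem la (h Q : Matrix (Fin n) (Fin n) ℂ) (hh : h.PosDef) (hQ : Q.PosDef) (τ : ℝ) (hτ : 0 < τ)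
    (A : Fin n → Matrix (Fin n) (Fin n) ℂ) (m : Matrix (Fin n) (Fin n) ℂ)
    (hm : m = Q + (τ : ℂ) • h) (Er : ℝ)
    (hE : Er = (∑ k, ∑ l, Q⁻¹ l k * trace (A k * (Q * m⁻¹ * ((τ : ℂ) • h)) * (A l)ᴴ * m⁻¹)).re) :
    (∀ a c, ‖((τ : ℂ) • (h * m⁻¹)) a c‖ ≤ (trace h).re + (trace h⁻¹).re) ∧ 0 ≤ Er ∧
    0 ≤ (trace (Q * h⁻¹)).re ∧ ∑ l, ∑ a, ∑ c, ‖(((τ : ℂ) • (h * m⁻¹)) * Q * (A l)ᴴ * m⁻¹) a c‖ ^ 2 ≤
      (trace h).re ^ 2 * (trace h⁻¹).re * ((trace (Q * h⁻¹)).re * Er) := by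
  obtain ⟨S, S', q, h1, h2, e1, e2, hq⟩ := simul h Q hh hQ
  have h3 : Sᴴ * S'ᴴ = 1 := by rw [← conjTranspose_mul, h2, conjTranspose_one]
  have h4 : S'ᴴ * Sᴴ = 1 := mul_eq_one_comm.1 h3
  change Q = S * Dg q * Sᴴ at e2
  have hqτ : ∀ i, 0 < q i + τ := fun i => by have := hq i; linarith
  set r : Fin n → ℝ := fun i => (q i + τ)⁻¹ with hr
  have hr0 : ∀ i, 0 < r i := fun i => inv_pos.2 (hqτ i)
  -- the inverses
  have em : m = S * Dg (fun i => q i + τ) * Sᴴ := by
    have : Dg (fun i => q i + τ) = Dg q + (τ : ℂ) • (1 : Matrix (Fin n) (Fin n) ℂ) := by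
      unfold Dg
      rw [← diagonal_one, ← diagonal_smul, diagonal_add]
      congr 1
      funext i
      simp
    rw [this, Matrix.mul_add, Matrix.add_mul, Matrix.mul_smul, Matrix.mul_one, Matrix.smul_mul,
      ← e1, ← e2, hm]
  have em' : m⁻¹ = S'ᴴ * Dg r * S' := by
    rw [em]
    have := conj_inv h1 (fun i => q i + τ) (fun i => (hqτ i).ne')
    unfold Dg
    rw [this]
    simp [hr]
  have eh' : h⁻¹ = S'ᴴ * S' := by
    refine Matrix.inv_eq_right_inv ?_
    calc h * (S'ᴴ * S') = S * (Sᴴ * S'ᴴ) * S' := by rw [e1]; simp only [Matrix.mul_assoc]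
      _ = 1 := by rw [h3, Matrix.mul_one, h1]
  have eQ' : Q⁻¹ = S'ᴴ * Dg (fun i => (q i)⁻¹) * S' := by
    rw [e2]
    have := conj_inv h1 q (fun i => (hq i).ne')
    unfold Dg
    rw [this]
    simp
  have eY : (τ : ℂ) • (h * m⁻¹) = S * Dg (fun i => τ * r i) * S' := by
    calc (τ : ℂ) • (h * m⁻¹) = (τ : ℂ) • (S * (Sᴴ * S'ᴴ) * Dg r * S') := by
          rw [em', e1]
          simp only [Matrix.mul_assoc]
      _ = S * ((τ : ℂ) • Dg r) * S' := by
          rw [h3, Matrix.mul_one, Matrix.mul_smul, Matrix.smul_mul]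
      _ = _ := by rw [Dg_smul]
  have eP : Q * m⁻¹ * ((τ : ℂ) • h) = S * Dg (fun i => τ * (q i * r i)) * Sᴴ := by
    calc Q * m⁻¹ * ((τ : ℂ) • h) =
          (τ : ℂ) • (S * Dg q * (Sᴴ * S'ᴴ) * Dg r * (S' * S) * Sᴴ) := by
          rw [em', e1, e2, Matrix.mul_smul]
          simp only [Matrix.mul_assoc]
      _ = S * ((τ : ℂ) • (Dg q * Dg r)) * Sᴴ := by
          rw [h3, h2, Matrix.mul_one, Matrix.mul_one, Matrix.mul_smul, Matrix.smul_mul]
          simp only [Matrix.mul_assoc]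
      _ = _ := by rw [Dg_mul, Dg_smul]
  -- the traces
  have t1 : (trace h).re = fr S := by rw [e1, tr_mul_star]
  have t2 : (trace h⁻¹).re = fr S' := by rw [eh', tr_star_mul]
  have t3 : (trace (Q * h⁻¹)).re = ∑ i, q i := by
    have : Q * h⁻¹ = S * Dg q * S' := by
      calc Q * h⁻¹ = S * Dg q * (Sᴴ * S'ᴴ) * S' := by
            rw [e2, eh']
            simp only [Matrix.mul_assoc]
        _ = _ := by rw [h3, Matrix.mul_one]
    rw [this, tr_conj h2]
    unfold trace Dg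
    rw [Complex.re_sum]
    refine Finset.sum_congr rfl fun i _ => ?_
    rw [diag_apply, diagonal_apply_eq, Complex.ofReal_re]
  -- the reduced matrices
  let Ah : Fin n → Matrix (Fin n) (Fin n) ℂ := fun l => S' * A l * S
  have eA : ∀ l, A l = S * Ah l * S' := by
    intro l
    calc A l = (S * S') * A l * (S * S') := by rw [h1, Matrix.one_mul, Matrix.mul_one]
      _ = _ := by simp only [Ah, Matrix.mul_assoc]
  have eAH : ∀ l, (A l)ᴴ = S'ᴴ * (Ah l)ᴴ * Sᴴ := by
    intro l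
    conv_lhs => rw [eA l]
    rw [conjTranspose_mul, conjTranspose_mul, Matrix.mul_assoc]
  set w : Fin n → Fin n → ℝ := fun i j => τ * (q j * r j) * r i with hw
  have hw0 : ∀ i j, 0 ≤ w i j := fun i j => by
    have := hq j
    have := hr0 i
    have := hr0 j
    positivity
  have hw1 : ∀ i j, w i j ≤ 1 := fun i j => by
    have a1 : q j * r j ≤ 1 := by
      rw [hr]
      simp only
      rw [← div_eq_mul_inv, div_le_one (hqτ j)]
      linarith
    have a2 : τ * r i ≤ 1 := by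
      rw [hr]
      simp only
      rw [← div_eq_mul_inv, div_le_one (hqτ i)]
      have := hq i
      linarith
    have a3 : 0 ≤ τ * r i := by
      have := hr0 i
      positivity
    calc w i j = (q j * r j) * (τ * r i) := by rw [hw]; ring
      _ ≤ 1 * 1 := mul_le_mul a1 a2 a3 zero_le_one
      _ = 1 := one_mul 1
  have eT : ∀ k l, trace (A k * (Q * m⁻¹ * ((τ : ℂ) • h)) * (A l)ᴴ * m⁻¹) =
      ∑ i, ∑ j, (w i j : ℂ) * (Ah k i j * conj (Ah l i j)) := by
    intro k l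
    rw [eP, eAH l, em', eA k]
    calc trace (S * Ah k * S' * (S * Dg (fun i => τ * (q i * r i)) * Sᴴ) *
            (S'ᴴ * (Ah l)ᴴ * Sᴴ) * (S'ᴴ * Dg r * S')) =
          trace (S * (Ah k * (S' * S) * Dg (fun i => τ * (q i * r i)) * (Sᴴ * S'ᴴ) * (Ah l)ᴴ *
            (Sᴴ * S'ᴴ) * Dg r) * S') := by simp only [Matrix.mul_assoc]
      _ = trace (Ah k * Dg (fun i => τ * (q i * r i)) * (Ah l)ᴴ * Dg r) := by
          rw [tr_conj h2, h2, h3, Matrix.mul_one, Matrix.mul_one, Matrix.mul_one]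
      _ = _ := tr_four _ _ _ _
  set F : Fin n → Fin n → ℝ := fun i j => ∑ p, (q p)⁻¹ * ‖∑ k, S' p k * Ah k i j‖ ^ 2 with hF
  have eE : Er = ∑ i, ∑ j, w i j * F i j := by
    have h5 : (∑ k, ∑ l, Q⁻¹ l k * trace (A k * (Q * m⁻¹ * ((τ : ℂ) • h)) * (A l)ᴴ * m⁻¹)) =
        ((∑ i, ∑ j, w i j * F i j : ℝ) : ℂ) := by
      simp only [eT]
      have h6 : ∀ i j, ((w i j * F i j : ℝ) : ℂ) =
          ∑ k, ∑ l, (w i j : ℂ) * (Q⁻¹ l k * (Ah k i j * conj (Ah l i j))) := by
        intro i j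
        rw [Complex.ofReal_mul, hF]
        simp only
        rw [← quad S' (fun p => (q p)⁻¹) (fun k => Ah k i j), ← eQ', Finset.mul_sum]
        exact Finset.sum_congr rfl fun k _ => Finset.mul_sum _ _ _
      rw [Complex.ofReal_sum]
      simp only [Complex.ofReal_sum, h6]
      simp only [Finset.mul_sum]
      have h7 : ∀ (f : Fin n → Fin n → Fin n → Fin n → ℂ),
          ∑ k, ∑ l, ∑ i, ∑ j, f k l i j = ∑ i, ∑ j, ∑ k, ∑ l, f k l i j := by
        intro f
        calc ∑ k, ∑ l, ∑ i, ∑ j, f k l i j = ∑ k, ∑ i, ∑ l, ∑ j, f k l i j :=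
              Finset.sum_congr rfl fun k _ => Finset.sum_comm
          _ = ∑ i, ∑ k, ∑ l, ∑ j, f k l i j := Finset.sum_comm
          _ = ∑ i, ∑ k, ∑ j, ∑ l, f k l i j :=
              Finset.sum_congr rfl fun i _ => Finset.sum_congr rfl fun k _ => Finset.sum_comm
          _ = ∑ i, ∑ j, ∑ k, ∑ l, f k l i j :=
              Finset.sum_congr rfl fun i _ => Finset.sum_comm
      rw [h7]
      refine Finset.sum_congr rfl fun i _ => Finset.sum_congr rfl fun j _ =>
        Finset.sum_congr rfl fun k _ => Finset.sum_congr rfl fun l _ => by ring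
    rw [hE, h5, Complex.ofReal_re]
  have hF0 : ∀ i j, 0 ≤ F i j := fun i j => Finset.sum_nonneg fun p _ => by
    have := hq p
    positivity
  have hEr : 0 ≤ Er := by
    rw [eE]
    exact Finset.sum_nonneg fun i _ => Finset.sum_nonneg fun j _ => mul_nonneg (hw0 i j) (hF0 i j)
  refine ⟨fun a c => ?_, hEr, ?_, ?_⟩
  · rw [eY, t1, t2]
    have h5 : (S * Dg (fun i => τ * r i) * S') a c = ∑ i, S a i * ((τ * r i : ℝ) : ℂ) * S' i c := by
      rw [Matrix.mul_apply]
      refine Finset.sum_congr rfl fun i _ => ?_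
      unfold Dg
      rw [Matrix.mul_diagonal]
    rw [h5]
    refine (norm_sum_le _ _).trans ?_
    have h6 : ∀ i, ‖S a i * ((τ * r i : ℝ) : ℂ) * S' i c‖ ≤ ‖S a i‖ ^ 2 + ‖S' i c‖ ^ 2 := by
      intro i
      have a2 : τ * r i ≤ 1 := by
        rw [hr]
        simp only
        rw [← div_eq_mul_inv, div_le_one (hqτ i)]
        have := hq i
        linarith
      have a3 : 0 ≤ τ * r i := by
        have := hr0 i
        positivity
      rw [norm_mul, norm_mul, Complex.norm_real, Real.norm_eq_abs, abs_of_nonneg a3]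
      have a4 := norm_nonneg (S a i)
      have a5 := norm_nonneg (S' i c)
      calc ‖S a i‖ * (τ * r i) * ‖S' i c‖ ≤ ‖S a i‖ * 1 * ‖S' i c‖ := by gcongr
        _ ≤ ‖S a i‖ ^ 2 + ‖S' i c‖ ^ 2 := by nlinarith [sq_nonneg (‖S a i‖ - ‖S' i c‖)]
    refine (Finset.sum_le_sum fun i _ => h6 i).trans ?_
    rw [Finset.sum_add_distrib]
    refine add_le_add ?_ ?_
    · unfold fr
      exact Finset.single_le_sum (f := fun a => ∑ i, ‖S a i‖ ^ 2)
        (fun a _ => Finset.sum_nonneg fun i _ => by positivity) (Finset.mem_univ a)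
    · unfold fr
      refine Finset.sum_le_sum fun i _ => ?_
      exact Finset.single_le_sum (f := fun c => ‖S' i c‖ ^ 2) (fun c _ => by positivity)
        (Finset.mem_univ c)
  · rw [t3]
    exact Finset.sum_nonneg fun i _ => (hq i).le
  · rw [t1, t2, t3]
    let M : Fin n → Matrix (Fin n) (Fin n) ℂ := fun l =>
      Dg (fun i => τ * r i) * Dg q * (Ah l)ᴴ * Dg r
    have eM : ∀ l, ((τ : ℂ) • (h * m⁻¹)) * Q * (A l)ᴴ * m⁻¹ = S * M l * S' := by
      intro l
      rw [eY, eAH l, em', e2]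
      calc S * Dg (fun i => τ * r i) * S' * (S * Dg q * Sᴴ) * (S'ᴴ * (Ah l)ᴴ * Sᴴ) *
              (S'ᴴ * Dg r * S') =
            S * (Dg (fun i => τ * r i) * (S' * S) * Dg q * (Sᴴ * S'ᴴ) * (Ah l)ᴴ * (Sᴴ * S'ᴴ) *
              Dg r) * S' := by simp only [Matrix.mul_assoc]
        _ = _ := by
            rw [h2, h3, Matrix.mul_one, Matrix.mul_one, Matrix.mul_one]
    have eMe : ∀ l i j, ‖M l i j‖ = w j i * ‖Ah l j i‖ := by
      intro l i j
      have h5 : M l i j = ((w j i : ℝ) : ℂ) * conj (Ah l j i) := by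
        simp only [M]
        rw [Dg_mul]
        unfold Dg
        rw [Matrix.mul_diagonal, Matrix.diagonal_mul, conjTranspose_apply, RCLike.star_def]
        rw [hw]
        push_cast
        ring
      rw [h5, norm_mul, Complex.norm_real, Real.norm_eq_abs, abs_of_nonneg (hw0 j i),
        RCLike.norm_conj]
    have hfr : ∀ i j, ∑ l, ‖Ah l i j‖ ^ 2 ≤ fr S * ((∑ i, q i) * F i j) := by
      intro i j
      set Bp : Fin n → ℂ := fun p => ∑ k, S' p k * Ah k i j with hBp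
      have h5 : ∀ l, Ah l i j = ∑ p, S l p * Bp p := by
        intro l
        have h6 : ∑ p, S l p * Bp p = ∑ k, (S * S') l k * Ah k i j := by
          rw [hBp]
          simp only [Finset.mul_sum, Matrix.mul_apply, Finset.sum_mul]
          rw [Finset.sum_comm]
          refine Finset.sum_congr rfl fun k _ => Finset.sum_congr rfl fun p _ => by ring
        rw [h6, h1]
        simp [Matrix.one_apply]
      have h7 : ∀ l, ‖Ah l i j‖ ^ 2 ≤ (∑ p, ‖S l p‖ ^ 2) * ∑ p, ‖Bp p‖ ^ 2 := by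
        intro l
        rw [h5 l]
        calc ‖∑ p, S l p * Bp p‖ ^ 2 ≤ (∑ p, ‖S l p‖ * ‖Bp p‖) ^ 2 := by
              gcongr
              refine (norm_sum_le _ _).trans (Finset.sum_le_sum fun p _ => ?_)
              rw [norm_mul]
          _ ≤ _ := Finset.sum_mul_sq_le_sq_mul_sq _ _ _
      have h8 : ∑ p, ‖Bp p‖ ^ 2 ≤ (∑ i, q i) * F i j := by
        rw [hF]
        simp only
        rw [Finset.mul_sum]
        refine Finset.sum_le_sum fun p _ => ?_
        have h9 : q p ≤ ∑ i, q i :=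
          Finset.single_le_sum (f := q) (fun i _ => (hq i).le) (Finset.mem_univ p)
        have h10 : 1 ≤ (∑ i, q i) * (q p)⁻¹ := by
          rw [← div_eq_mul_inv, le_div_iff₀ (hq p), one_mul]
          exact h9
        calc ‖Bp p‖ ^ 2 = 1 * ‖Bp p‖ ^ 2 := (one_mul _).symm
          _ ≤ ((∑ i, q i) * (q p)⁻¹) * ‖Bp p‖ ^ 2 := by gcongr
          _ = _ := by ring
      calc ∑ l, ‖Ah l i j‖ ^ 2 ≤ ∑ l, (∑ p, ‖S l p‖ ^ 2) * ∑ p, ‖Bp p‖ ^ 2 :=
            Finset.sum_le_sum fun l _ => h7 l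
        _ = fr S * ∑ p, ‖Bp p‖ ^ 2 := by
            rw [← Finset.sum_mul]
            rfl
        _ ≤ _ := mul_le_mul_of_nonneg_left h8 (fr_nonneg S)
    have hMs : ∑ l, fr (M l) ≤ fr S * ((∑ i, q i) * Er) := by
      calc ∑ l, fr (M l) ≤ ∑ l, ∑ i, ∑ j, w j i * ‖Ah l j i‖ ^ 2 := by
            refine Finset.sum_le_sum fun l _ => Finset.sum_le_sum fun i _ =>
              Finset.sum_le_sum fun j _ => ?_
            rw [eMe, mul_pow]
            refine mul_le_mul_of_nonneg_right ?_ (by positivity)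
            have := hw0 j i
            have := hw1 j i
            nlinarith
        _ = ∑ i, ∑ j, w j i * ∑ l, ‖Ah l j i‖ ^ 2 := by
            rw [Finset.sum_comm]
            refine Finset.sum_congr rfl fun i _ => ?_
            rw [Finset.sum_comm]
            exact Finset.sum_congr rfl fun j _ => (Finset.mul_sum _ _ _).symm
        _ ≤ ∑ i, ∑ j, w j i * (fr S * ((∑ i, q i) * F j i)) := by
            refine Finset.sum_le_sum fun i _ => Finset.sum_le_sum fun j _ => ?_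
            exact mul_le_mul_of_nonneg_left (hfr j i) (hw0 j i)
        _ = fr S * ((∑ i, q i) * Er) := by
            rw [eE, Finset.mul_sum, Finset.mul_sum, Finset.sum_comm]
            refine Finset.sum_congr rfl fun i _ => ?_
            rw [Finset.mul_sum, Finset.mul_sum]
            refine Finset.sum_congr rfl fun j _ => by ring
    calc ∑ l, ∑ a, ∑ c, ‖(((τ : ℂ) • (h * m⁻¹)) * Q * (A l)ᴴ * m⁻¹) a c‖ ^ 2 ≤
          ∑ l, fr S * fr S' * fr (M l) := by
          refine Finset.sum_le_sum fun l _ => ?_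
          rw [eM l]
          exact cs3_sum S (M l) S'
      _ = fr S * fr S' * ∑ l, fr (M l) := (Finset.mul_sum _ _ _).symm
      _ ≤ fr S * fr S' * (fr S * ((∑ i, q i) * Er)) :=
          mul_le_mul_of_nonneg_left hMs (mul_nonneg (fr_nonneg _) (fr_nonneg _))
      _ = _ := by ring

end Pool.Agent.Helper54.GS
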