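import Pool.Agent.Helper15.GS.GoalsD
import Pool.Agent.Helper54.GS.GDBa

/-! Packet GS GDB: bounds for `Y` and its antiholomorphic derivative. -/

open Complex Metric Set Filter Topology MeasureTheory
open scoped ContDiff ComplexConjugate ComplexOrder Manifold Matrix

namespace Pool.Agent.Helper54.GS

open Pool.Agent.Helper95.Lin Pool.Agent.Helper16.Abund Pool.Agent.Helper92.Orb
  Pool.Agent.Helper10.SP Pool.Agent.Helper95.RK Pool.Agent.Helper57.HS
  Pool.Agent.Helper15.HS Pool.Agent.Helper15.GS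

universe u v

theorem inv_cont {n : ℕ} {C : Set (Cn n)} {h : Cn n → Matrix (Fin n) (Fin n) ℂ}
    (h1 : ∀ i j, ContinuousOn (fun x => h x i j) C) (h2 : ∀ x ∈ C, (h x).det ≠ 0) :
    ContinuousOn (fun x => (h x)⁻¹) C := by
  have h3 : ContinuousOn h C := continuousOn_pi.2 fun i => continuousOn_pi.2 fun j => h1 i j
  have h4 : ContinuousOn (fun x => (h x).det) C :=
    (continuous_id.matrix_det).comp_continuousOn h3
  have h5 : ContinuousOn (fun x => (h x).adjugate) C :=
    (continuous_id.matrix_adjugate).comp_continuousOn h3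
  refine ((h4.inv₀ h2).smul h5).congr fun x hx => ?_
  rw [Matrix.inv_def, Ring.inverse_eq_inv']
  rfl

theorem tr_cont {n : ℕ} {C : Set (Cn n)} {h : Cn n → Matrix (Fin n) (Fin n) ℂ}
    (h1 : ContinuousOn h C) : ContinuousOn (fun x => (Matrix.trace (h x)).re) C :=
  (Complex.continuous_re.comp (continuous_id.matrix_trace)).comp_continuousOn h1

/-- **GDB** -/
theorem gdb (hLDI : S_LDI) : S_GDB.{u} := by
  intro n T G _ R h hh C hCT hC
  have c0 : ∀ i j, ContinuousOn (fun x => h x i j) C := fun i j =>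
    ((hh.smooth i j).continuousOn).mono hCT
  have c1 : ContinuousOn h C := continuousOn_pi.2 fun i => continuousOn_pi.2 fun j => c0 i j
  have c2 : ContinuousOn (fun x => (h x)⁻¹) C :=
    inv_cont c0 fun x hx => (hh.posDef x (hCT hx)).det_pos.ne'
  have c3 := tr_cont c1
  have c4 := tr_cont c2
  obtain ⟨K1, hK1⟩ := hC.exists_bound_of_continuousOn (c3.add c4)
  obtain ⟨K2, hK2⟩ := hC.exists_bound_of_continuousOn ((c3.pow 2).mul c4)
  refine ⟨max (max K1 K2) 1, lt_of_lt_of_le one_pos (le_max_right _ _), ?_⟩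
  intro τ Q hτ hQ x hx
  have hxT := hCT hx
  have hTo : IsOpen T := hQ.et.isOpen
  obtain ⟨l1, l2, l3, l4⟩ := la (h x) (Q x) (hh.posDef x hxT) (hQ.posDef x hxT) τ hτ
    (fun l => Adf h Q l x) (mS τ h Q x) rfl (Er1 τ h Q x) rfl
  have hcd := (hLDI T hTo Q h (fun x => Q x - rho Q x) τ hτ
    ⟨hQ.smooth, fun x hx => (hQ.posDef x hx).isHermitian, hQ.closed⟩ hQ.posDef
    (fun x _ => by simp) hh.smooth hh.posDef x hxT).1
  have b1 : (Matrix.trace (h x)).re + (Matrix.trace (h x)⁻¹).re ≤ max (max K1 K2) 1 :=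
    (Real.le_norm_self _).trans ((hK1 x hx).trans ((le_max_left _ _).trans (le_max_left _ _)))
  have b2 : (Matrix.trace (h x)).re ^ 2 * (Matrix.trace (h x)⁻¹).re ≤ max (max K1 K2) 1 :=
    (Real.le_norm_self _).trans ((hK2 x hx).trans ((le_max_right _ _).trans (le_max_left _ _)))
  refine ⟨fun a c => (l1 a c).trans b1, l2, ?_⟩
  have h5 : ∀ l a c, ‖cdb l (fun y => YS τ h Q y a c) x‖ =
      ‖(((τ : ℂ) • (h x * (mS τ h Q x)⁻¹)) * Q x * (Adf h Q l x)ᴴ * (mS τ h Q x)⁻¹) a c‖ := by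
    intro l a c
    have h6 : cdb l (fun y => YS τ h Q y a c) x = (cdbM l (YS τ h Q) x) a c := rfl
    rw [h6, hcd l, Matrix.neg_apply, norm_neg]
    rfl
  simp only [h5]
  refine l4.trans ?_
  rw [mul_assoc (max (max K1 K2) 1)]
  exact mul_le_mul_of_nonneg_right b2 (mul_nonneg l3 l2)

end Pool.Agent.Helper54.GS
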